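import Pool.Agent.V1126.CTMetric

/-!
# Endpoint sets of Cannon-Thurston laminations can have positive Hausdorff dimension

`H` is the free group of rank three, `X` its Cayley tree, so `∂H` is the space of infinite reduced words.
`Z` is the quotient of `∂H` that collapses the limit set of each conjugate of the free factor generated by
the first two generators (and the pair of ends of each conjugate of the third generator).
-/

set_option autoImplicit false

namespace Pool.Agent.Results.MP_d1e581_al.PositiveDimension

open Pool.Agent.V1126.CT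

/-- There are a convergence action of the free group of rank three on a metrizable compactum and a
Cannon-Thurston map whose lamination has an endpoint set of positive Hausdorff dimension for every visual
metric. -/
theorem result :
    ∃ (Z : Type) (_ : TopologicalSpace Z) (_ : CompactSpace Z)
      (_ : TopologicalSpace.MetrizableSpace Z) (_ : MulAction (FreeGroup (Fin 3)) Z),
      (∀ g : FreeGroup (Fin 3), Continuous fun z : Z => g • z) ∧
      IsProperOnTriples (FreeGroup (Fin 3)) Z ∧
      ∃ f : Boundary 3 → Z, Continuous f ∧
        (∀ (g : FreeGroup (Fin 3)) (ξ : Boundary 3), f (g • ξ) = g • f ξ) ∧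
        (∃ z0 : Z, ∀ ξ : Boundary 3, ∀ U ∈ nhds (f ξ), ∃ N : ℕ, ∀ g : FreeGroup (Fin 3),
          (∀ k < N, g.toWord[k]? = some (ξ.1 k)) → g • z0 ∈ U) ∧
        ∀ a : ℝ, 1 < a → (∃ m : MetricSpace (Boundary 3), IsVisual m a) ∧
          ∀ m : MetricSpace (Boundary 3), IsVisual m a →
            0 < @dimH (Boundary 3) m.toEMetricSpace {p | ∃ q : Boundary 3, p ≠ q ∧ f p = f q} := by
  refine ⟨Quo, inferInstance, inferInstance, inferInstance, inferInstance, isConvergence.1, ?_, quo,
    continuous_quo, quo_smul, ⟨quo (cst (0, true)), fun ξ U hU => orbit_tendsto ξ hU⟩,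
    fun a ha => ⟨⟨_, isVisual_stdMetric 3 a ha⟩, fun m hm => ?_⟩⟩
  · intro K hK hd
    exact finite_of_triples isConvergence.2 K hK hd
  · apply dimH_pos m ha hm
    intro ξ hξ
    have hξ2 : ∀ k, (ξ.1 k).1 ≠ 2 := by
      intro k
      rcases hξ k with h | h <;> rw [h] <;> decide
    by_cases h : ξ = cst (0, true)
    · refine ⟨cst (1, true), ?_, quo_eq hξ2 (fun k => by show (1 : Fin 3) ≠ 2; decide)⟩
      rw [h]
      intro h2
      have h3 := congrArg (fun ζ : Boundary 3 => ζ.1 0) h2
      exact absurd h3 (by show ((0, true) : Letter 3) ≠ (1, true); decide)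
    · exact ⟨cst (0, true), h, quo_eq hξ2 (fun k => by show (0 : Fin 3) ≠ 2; decide)⟩

end Pool.Agent.Results.MP_d1e581_al.PositiveDimension
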